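import Mathlib

set_option autoImplicit false

namespace Pool.Agent.HypDeg

open Finset

variable {α : Type*} [DecidableEq α]

lemma symm_card (U N : Finset α) : (symmDiff U N).card + (U ∩ N).card = (U \ N).card + N.card := by
  have h1 : (symmDiff U N).card = (U \ N).card + (N \ U).card := by
    rw [symmDiff_def, sup_eq_union, card_union_of_disjoint]
    exact disjoint_sdiff_sdiff
  have h2 := card_sdiff_add_card_inter N U
  rw [inter_comm N U] at h2
  omega

lemma count_fiber (S N : Finset α) (hN : N ⊆ S) (a b : ℕ) :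
    ((S.powerset).filter (fun U => (U ∩ (S \ N)).card + a = (U ∩ N).card + b)).card ≤
      S.card.choose (S.card / 2) := by
  have h1 : ∀ U ∈ (S.powerset).filter (fun U => (U ∩ (S \ N)).card + a = (U ∩ N).card + b),
      symmDiff U N ∈ powersetCard (N.card + b - a) S := by
    intro U hU
    rw [mem_filter, mem_powerset] at hU
    obtain ⟨hUS, hU⟩ := hU
    rw [mem_powersetCard]
    refine ⟨?_, ?_⟩
    · rw [symmDiff_def, sup_eq_union]
      exact union_subset (sdiff_subset.trans hUS) (sdiff_subset.trans hN)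
    · have h2 := symm_card U N
      have h3 : U ∩ (S \ N) = U \ N := by
        ext x
        simp only [mem_inter, mem_sdiff]
        exact ⟨fun h => ⟨h.1, h.2.2⟩, fun h => ⟨h.1, hUS h.1, h.2⟩⟩
      rw [h3] at hU
      omega
  have h2 := card_le_card_of_injOn (fun U => symmDiff U N) h1 (fun U _ V _ h =>
    symmDiff_left_injective N h)
  rw [card_powersetCard] at h2
  exact h2.trans (Nat.choose_le_middle _ _)

/-- The two-block counting bound. -/
lemma main_count (E S1 S2 N1 N2 : Finset α) (h1 : S1 ⊆ E) (h2 : S2 ⊆ E) (hd : Disjoint S1 S2)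
    (hN1 : N1 ⊆ S1) (hN2 : N2 ⊆ S2) (f1 g1 f2 g2 : Finset α → ℕ) (A : Finset (Finset α))
    (hA : ∀ H ∈ A, H ⊆ E ∧
      (H ∩ (S1 \ N1)).card + f1 (H \ (S1 ∪ S2)) = (H ∩ N1).card + g1 (H \ (S1 ∪ S2)) ∧
      (H ∩ (S2 \ N2)).card + f2 (H \ (S1 ∪ S2)) = (H ∩ N2).card + g2 (H \ (S1 ∪ S2))) :
    A.card ≤ S1.card.choose (S1.card / 2) * S2.card.choose (S2.card / 2) *
      2 ^ (E.card - (S1.card + S2.card)) := by
  have key := card_le_mul_card_image (f := fun H => H \ (S1 ∪ S2)) A
    (S1.card.choose (S1.card / 2) * S2.card.choose (S2.card / 2)) ?_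
  · refine key.trans (Nat.mul_le_mul_left _ ?_)
    have : A.image (fun H => H \ (S1 ∪ S2)) ⊆ (E \ (S1 ∪ S2)).powerset := by
      intro R hR
      rw [mem_image] at hR
      obtain ⟨H, hH, rfl⟩ := hR
      rw [mem_powerset]
      exact sdiff_subset_sdiff (hA H hH).1 le_rfl
    refine (card_le_card this).trans ?_
    rw [card_powerset, card_sdiff_of_subset (union_subset h1 h2), card_union_of_disjoint hd]
  · intro R _
    have h3 : ∀ H ∈ A.filter (fun H => H \ (S1 ∪ S2) = R), (H ∩ S1, H ∩ S2) ∈
        ((S1.powerset).filter (fun U => (U ∩ (S1 \ N1)).card + f1 R = (U ∩ N1).card + g1 R)) ×ˢ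
        ((S2.powerset).filter (fun U => (U ∩ (S2 \ N2)).card + f2 R = (U ∩ N2).card + g2 R)) := by
      intro H hH
      rw [mem_filter] at hH
      obtain ⟨hHA, hR⟩ := hH
      obtain ⟨-, e1, e2⟩ := hA H hHA
      rw [hR] at e1 e2
      have i1 : H ∩ S1 ∩ (S1 \ N1) = H ∩ (S1 \ N1) := by
        rw [inter_assoc, inter_eq_right.mpr sdiff_subset]
      have i2 : H ∩ S1 ∩ N1 = H ∩ N1 := by rw [inter_assoc, inter_eq_right.mpr hN1]
      have i3 : H ∩ S2 ∩ (S2 \ N2) = H ∩ (S2 \ N2) := by
        rw [inter_assoc, inter_eq_right.mpr sdiff_subset]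
      have i4 : H ∩ S2 ∩ N2 = H ∩ N2 := by rw [inter_assoc, inter_eq_right.mpr hN2]
      rw [mem_product, mem_filter, mem_filter, mem_powerset, mem_powerset]
      dsimp only
      rw [i1, i2, i3, i4]
      exact ⟨⟨inter_subset_right, e1⟩, ⟨inter_subset_right, e2⟩⟩
    have h4 := card_le_card_of_injOn (fun H => (H ∩ S1, H ∩ S2)) h3 (by
      intro H hH H' hH' heq
      rw [coe_filter, Set.mem_ofPred_eq] at hH hH'
      have e1 : H ∩ S1 = H' ∩ S1 := congrArg Prod.fst heq
      have e2 : H ∩ S2 = H' ∩ S2 := congrArg Prod.snd heq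
      have e3 : H \ (S1 ∪ S2) = H' \ (S1 ∪ S2) := hH.2.trans hH'.2.symm
      have r : ∀ K : Finset α, K = (K ∩ S1) ∪ (K ∩ S2) ∪ (K \ (S1 ∪ S2)) := by
        intro K
        ext x
        simp only [mem_union, mem_inter, mem_sdiff]
        tauto
      rw [r H, r H', e1, e2, e3])
    refine h4.trans ?_
    rw [card_product]
    exact Nat.mul_le_mul (count_fiber S1 N1 hN1 _ _) (count_fiber S2 N2 hN2 _ _)

/-- Lower bound for the number of sets meeting two disjoint sets of equal size equally. -/
lemma lower_count (E P N : Finset α) (hP : P ⊆ E) (hN : N ⊆ E) (hd : Disjoint P N)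
    (hc : P.card = N.card) :
    Nat.centralBinom N.card * 2 ^ (E.card - 2 * N.card) ≤
      ((E.powerset).filter (fun H => (H ∩ P).card = (H ∩ N).card)).card := by
  have h0 : ((E \ (P ∪ N)).powerset ×ˢ powersetCard N.card (P ∪ N)).card =
      Nat.centralBinom N.card * 2 ^ (E.card - 2 * N.card) := by
    rw [card_product, card_powerset, card_powersetCard, card_sdiff_of_subset (union_subset hP hN),
      card_union_of_disjoint hd, hc, ← two_mul, mul_comm]
    rfl
  rw [← h0]
  refine card_le_card_of_injOn (fun x => x.1 ∪ symmDiff x.2 N) ?_ ?_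
  · rintro ⟨R, U⟩ h
    rw [coe_product, Set.mem_prod, mem_coe, mem_coe, mem_powerset, mem_powersetCard] at h
    obtain ⟨hR, hU, hUc⟩ := h
    dsimp only at hR hU hUc ⊢
    rw [mem_coe, mem_filter, mem_powerset]
    refine ⟨?_, ?_⟩
    · refine union_subset (hR.trans sdiff_subset) ?_
      rw [symmDiff_def, sup_eq_union]
      exact union_subset (sdiff_subset.trans (hU.trans (union_subset hP hN)))
        (sdiff_subset.trans hN)
    · have i1 : (R ∪ symmDiff U N) ∩ P = U \ N := by
        ext x
        simp only [mem_inter, mem_union, mem_symmDiff, mem_sdiff]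
        constructor
        · rintro ⟨h | h | h, hx⟩
          · have := (mem_sdiff.mp (hR h)).2
            exact absurd (mem_union_left _ hx) this
          · exact h
          · exact absurd h.1 (disjoint_left.mp hd hx)
        · rintro ⟨hxU, hxN⟩
          refine ⟨Or.inr (Or.inl ⟨hxU, hxN⟩), ?_⟩
          rcases mem_union.mp (hU hxU) with h | h
          · exact h
          · exact absurd h hxN
      have i2 : (R ∪ symmDiff U N) ∩ N = N \ U := by
        ext x
        simp only [mem_inter, mem_union, mem_symmDiff, mem_sdiff]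
        constructor
        · rintro ⟨h | h | h, hx⟩
          · have := (mem_sdiff.mp (hR h)).2
            exact absurd (mem_union_right _ hx) this
          · exact absurd hx h.2
          · exact h
        · rintro ⟨hxN, hxU⟩
          exact ⟨Or.inr (Or.inr ⟨hxN, hxU⟩), hxN⟩
      rw [i1, i2]
      have h1 := card_sdiff_add_card_inter U N
      have h2 := card_sdiff_add_card_inter N U
      rw [inter_comm N U] at h2
      omega
  · rintro ⟨R, U⟩ h ⟨R', U'⟩ h' heq
    rw [coe_product, Set.mem_prod, mem_coe, mem_coe, mem_powerset, mem_powersetCard] at h h'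
    dsimp only at h h' heq
    have hs : ∀ V : Finset α, V ⊆ P ∪ N → symmDiff V N ⊆ P ∪ N := by
      intro V hV
      rw [symmDiff_def, sup_eq_union]
      exact union_subset (sdiff_subset.trans hV) (sdiff_subset.trans subset_union_right)
    have e1 : (R ∪ symmDiff U N) \ (P ∪ N) = R := by
      rw [union_sdiff_distrib, sdiff_eq_empty_iff_subset.mpr (hs U h.2.1), union_empty]
      exact sdiff_eq_self_of_disjoint (disjoint_left.mpr (fun x hx => (mem_sdiff.mp (h.1 hx)).2))
    have e1' : (R' ∪ symmDiff U' N) \ (P ∪ N) = R' := by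
      rw [union_sdiff_distrib, sdiff_eq_empty_iff_subset.mpr (hs U' h'.2.1), union_empty]
      exact sdiff_eq_self_of_disjoint (disjoint_left.mpr (fun x hx => (mem_sdiff.mp (h'.1 hx)).2))
    have e2 : (R ∪ symmDiff U N) ∩ (P ∪ N) = symmDiff U N := by
      rw [union_inter_distrib_right, inter_eq_left.mpr (hs U h.2.1)]
      have : R ∩ (P ∪ N) = ∅ := by
        rw [← disjoint_iff_inter_eq_empty]
        exact disjoint_left.mpr (fun x hx => (mem_sdiff.mp (h.1 hx)).2)
      rw [this, empty_union]
    have e2' : (R' ∪ symmDiff U' N) ∩ (P ∪ N) = symmDiff U' N := by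
      rw [union_inter_distrib_right, inter_eq_left.mpr (hs U' h'.2.1)]
      have : R' ∩ (P ∪ N) = ∅ := by
        rw [← disjoint_iff_inter_eq_empty]
        exact disjoint_left.mpr (fun x hx => (mem_sdiff.mp (h'.1 hx)).2)
      rw [this, empty_union]
    have hR : R = R' := by rw [← e1, ← e1', heq]
    have hU : U = U' := symmDiff_left_injective N (by
      show symmDiff U N = symmDiff U' N
      rw [← e2, ← e2', heq])
    rw [hR, hU]

end Pool.Agent.HypDeg
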