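import Pool.Agent.HypDeg.Moment

set_option autoImplicit false

namespace Pool.Agent.HypDeg

open Finset Filter Topology

lemma real_core (n tau M' M3 M x q y S G b : ℝ) (hn : 0 < n) (htau0 : 0 < tau) (hM'0 : 0 < M')
    (hM3 : 0 ≤ M3) (hM0 : 0 < M) (hx : 0 < x) (hb : 0 < b)
    (hS0 : tau * (b * x) ≤ S)
    (hsm : S ^ 2 ≤ G * (2 * S + (tau * (4 * n * (b * q ^ 2)) + tau ^ 2 * (b * y ^ 2))))
    (h1 : 1 / 4 ≤ M' * x ^ 2) (h2 : (M3 + 1) * q ^ 2 ≤ 1) (h3 : M * y ^ 2 ≤ M' * x ^ 2) :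
    1 / (4 * √M' / tau + 16 * n * M' / (tau * (M3 + 1)) + M' / M) ≤ G / b := by
  obtain ⟨s0, hs0⟩ : ∃ s0, s0 = tau * (b * x) := ⟨_, rfl⟩
  obtain ⟨W, hW⟩ : ∃ W, W = tau * (4 * n * (b * q ^ 2)) + tau ^ 2 * (b * y ^ 2) := ⟨_, rfl⟩
  rw [← hs0] at hS0
  rw [← hW] at hsm
  have hs0p : 0 < s0 := by rw [hs0]; positivity
  have hW0 : 0 ≤ W := by rw [hW]; positivity
  have hG1 : s0 ^ 2 / (2 * s0 + W) ≤ G := by
    have hSp : 0 < S := lt_of_lt_of_le hs0p hS0
    have h1 : S ^ 2 / (2 * S + W) ≤ G := by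
      rw [div_le_iff₀ (by positivity)]
      exact hsm
    refine le_trans ?_ h1
    rw [div_le_div_iff₀ (by positivity) (by positivity)]
    have h2 : s0 ^ 2 ≤ S ^ 2 := by gcongr
    have h3 : s0 * S * s0 ≤ s0 * S * S := by gcongr
    have h4 : s0 ^ 2 * W ≤ S ^ 2 * W := by gcongr
    nlinarith
  have hD : s0 ^ 2 / (2 * s0 + W) / b =
      1 / (2 / (tau * x) + 4 * n * q ^ 2 / (tau * x ^ 2) + y ^ 2 / x ^ 2) := by
    rw [hW, hs0]
    have h1 : 2 / (tau * x) + 4 * n * q ^ 2 / (tau * x ^ 2) + y ^ 2 / x ^ 2 =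
        (2 * tau * x + 4 * n * q ^ 2 * tau + y ^ 2 * tau ^ 2) / (tau ^ 2 * x ^ 2) := by
      field_simp
    rw [h1, one_div_div]
    have h2 : 0 < 2 * tau * x + 4 * n * q ^ 2 * tau + y ^ 2 * tau ^ 2 := by positivity
    rw [div_div, div_eq_div_iff (by positivity) (by positivity)]
    ring
  have hG2 : 1 / (2 / (tau * x) + 4 * n * q ^ 2 / (tau * x ^ 2) + y ^ 2 / x ^ 2) ≤ G / b := by
    rw [← hD]
    gcongr
  refine le_trans ?_ hG2
  have b1 : 2 / (tau * x) ≤ 4 * √M' / tau := by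
    have h2 : 1 / 2 ≤ √M' * x := by
      have h3 : √(1 / 4 : ℝ) ≤ √(M' * x ^ 2) := Real.sqrt_le_sqrt h1
      rw [Real.sqrt_mul hM'0.le, Real.sqrt_sq hx.le] at h3
      have h4 : √(1 / 4 : ℝ) = 1 / 2 := by
        rw [show (1 / 4 : ℝ) = (1 / 2) ^ 2 by norm_num]
        exact Real.sqrt_sq (by norm_num)
      rwa [h4] at h3
    rw [div_le_div_iff₀ (by positivity) htau0]
    nlinarith
  have b2 : 4 * n * q ^ 2 / (tau * x ^ 2) ≤ 16 * n * M' / (tau * (M3 + 1)) := by
    rw [div_le_div_iff₀ (by positivity) (by positivity)]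
    have h3 : 4 * n * q ^ 2 * (tau * (M3 + 1)) = 4 * n * tau * ((M3 + 1) * q ^ 2) := by
      ring
    have h4 : 16 * n * M' * (tau * x ^ 2) = 4 * n * tau * (4 * (M' * x ^ 2)) := by ring
    rw [h3, h4]
    have h5 : (M3 + 1) * q ^ 2 ≤ 4 * (M' * x ^ 2) := by linarith
    gcongr
  have b3 : y ^ 2 / x ^ 2 ≤ M' / M := by
    rw [div_le_div_iff₀ (by positivity) hM0]
    linarith
  have hpos : 0 < 2 / (tau * x) + 4 * n * q ^ 2 / (tau * x ^ 2) + y ^ 2 / x ^ 2 := by
    have : 0 < 2 / (tau * x) := by positivity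
    positivity
  exact one_div_le_one_div_of_le hpos (by linarith)

lemma ratio_lower (n k : ℕ) (hn : 6 ≤ n) (hM : 1 ≤ (n - 4).choose k) :
    1 / (4 * √((n - 2).choose k : ℝ) / ((n : ℝ) * (n - 1)) +
      16 * n * ((n - 2).choose k : ℝ) / (((n : ℝ) * (n - 1)) * (((n - 3).choose k : ℝ) + 1)) +
      ((n - 2).choose k : ℝ) / ((n - 4).choose k : ℝ)) ≤ ((Good n k).card : ℝ) / B n k := by
  have hn4 : 4 ≤ n := by omega
  have hsm := second_moment n k hn4
  have hT : ((univ : Finset (Fin n)).offDiag.card : ℝ) = (n : ℝ) * (n - 1) := by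
    rw [offDiag_card, card_univ, Fintype.card_fin, Nat.cast_sub (Nat.le_mul_self n)]
    push_cast; ring
  have hn' : (6 : ℝ) ≤ n := by exact_mod_cast hn
  have htau0 : 0 < (n : ℝ) * (n - 1) := by nlinarith
  have hB : 0 < B n k := by unfold B; positivity
  have hMM' : (n - 4).choose k ≤ (n - 2).choose k := Nat.choose_le_choose _ (by omega)
  have hx := p_pos ((n - 2).choose k)
  rw [hT] at hsm
  have hS0 : (n : ℝ) * (n - 1) * (B n k * p ((n - 2).choose k)) ≤
      ∑ t ∈ (univ : Finset (Fin n)).offDiag, ((Ev n (k + 1) t).card : ℝ) := by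
    have h1 : ∀ t ∈ (univ : Finset (Fin n)).offDiag,
        B n k * p ((n - 2).choose k) ≤ ((Ev n (k + 1) t).card : ℝ) := fun t ht =>
      lowR n k hn4 t (mem_offDiag.mp ht).2.2
    have h2 := card_nsmul_le_sum _ _ _ h1
    rw [nsmul_eq_mul, hT] at h2
    exact h2
  have hM'1 : 1 ≤ (n - 2).choose k := hM.trans hMM'
  exact real_core n _ _ _ _ _ (Q ((n - 3).choose k)) (p ((n - 4).choose k)) _ _ _ (by linarith)
    htau0 (by exact_mod_cast hM'1) (Nat.cast_nonneg _) (by exact_mod_cast hM) hx hB hS0 hsm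
    (p_lower hM'1) (Q_upper _) (g_mono hMM')

lemma c3 (m : ℕ) : ((m + 3).choose 3 : ℝ) = (m + 3) * (m + 2) * (m + 1) / 6 := by
  induction m with
  | zero => norm_num
  | succ m ih =>
    have h : (m + 1 + 3).choose 3 = (m + 3).choose 2 + (m + 3).choose 3 :=
      Nat.choose_succ_succ _ _
    rw [h, Nat.cast_add, ih, Nat.cast_choose_two]
    push_cast
    ring

/-- the data needed for the limit -/
lemma data (k : ℕ) (hk : k = 2 ∨ k = 3) : ∃ R : ℕ → ℝ, Tendsto R atTop (𝓝 1) ∧ ∀ j : ℕ,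
    1 ≤ (j + 3).choose k ∧ ((j + 5).choose k : ℝ) ≤ ((j : ℝ) + 7) ^ 3 ∧
    ((j + 5).choose k : ℝ) ≤ 4 * (((j + 4).choose k : ℝ) + 1) ∧
    ((j + 5).choose k : ℝ) / ((j + 3).choose k : ℝ) = R j := by
  have t : ∀ a : ℝ, Tendsto (fun j : ℕ => 1 + a / ((j : ℝ) + 1)) atTop (𝓝 (1 + 0)) := by
    intro a
    refine tendsto_const_nhds.add ?_
    have := (tendsto_one_div_add_atTop_nhds_zero_nat (𝕜 := ℝ)).const_mul a
    simpa [div_eq_mul_inv] using this
  have t2 : ∀ a : ℝ, Tendsto (fun j : ℕ => 1 + a / ((j : ℝ) + 2)) atTop (𝓝 (1 + 0)) := by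
    intro a
    have := (t a).comp (tendsto_add_atTop_nat 1)
    refine this.congr ?_
    intro j
    simp only [Function.comp]
    push_cast
    ring
  have t3 : ∀ a : ℝ, Tendsto (fun j : ℕ => 1 + a / ((j : ℝ) + 3)) atTop (𝓝 (1 + 0)) := by
    intro a
    have := (t a).comp (tendsto_add_atTop_nat 2)
    refine this.congr ?_
    intro j
    simp only [Function.comp]
    push_cast
    ring
  rcases hk with rfl | rfl
  · refine ⟨fun j => (1 + 2 / ((j : ℝ) + 3)) * (1 + 2 / ((j : ℝ) + 2)), ?_, ?_⟩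
    · have := (t3 2).mul (t2 2)
      simpa using this
    · intro j
      have hj : (0 : ℝ) ≤ j := Nat.cast_nonneg j
      refine ⟨Nat.choose_pos (by omega), ?_, ?_, ?_⟩
      · rw [Nat.cast_choose_two]
        push_cast
        nlinarith [mul_nonneg hj hj, mul_nonneg (mul_nonneg hj hj) hj]
      · rw [Nat.cast_choose_two, Nat.cast_choose_two]
        push_cast
        nlinarith [mul_nonneg hj hj]
      · rw [Nat.cast_choose_two, Nat.cast_choose_two]
        push_cast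
        have h1 : (j : ℝ) + 3 ≠ 0 := by positivity
        have h2 : (j : ℝ) + 3 - 1 ≠ 0 := by
          have : (j : ℝ) + 3 - 1 = j + 2 := by ring
          rw [this]; positivity
        have h3 : (j : ℝ) + 2 ≠ 0 := by positivity
        have h4 : (j : ℝ) + 3 - 1 = j + 2 := by ring
        rw [h4]
        field_simp
        ring
  · refine ⟨fun j => (1 + 3 / ((j : ℝ) + 2)) * (1 + 3 / ((j : ℝ) + 1)), ?_, ?_⟩
    · have := (t2 3).mul (t 3)
      simpa using this
    · intro j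
      have hj : (0 : ℝ) ≤ j := Nat.cast_nonneg j
      have e5 : ((j + 5).choose 3 : ℝ) = (j + 5) * (j + 4) * (j + 3) / 6 := by
        have := c3 (j + 2)
        push_cast at this
        rw [show j + 5 = j + 2 + 3 by ring, this]
        ring
      have e4 : ((j + 4).choose 3 : ℝ) = (j + 4) * (j + 3) * (j + 2) / 6 := by
        have := c3 (j + 1)
        push_cast at this
        rw [show j + 4 = j + 1 + 3 by ring, this]
        ring
      refine ⟨Nat.choose_pos (by omega), ?_, ?_, ?_⟩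
      · rw [e5]
        nlinarith [mul_nonneg hj hj, mul_nonneg (mul_nonneg hj hj) hj]
      · rw [e5, e4]
        nlinarith [mul_nonneg hj hj, mul_nonneg (mul_nonneg hj hj) hj]
      · rw [e5, c3 j]
        field_simp
        ring

theorem main (k : ℕ) (hk : k = 2 ∨ k = 3) :
    Tendsto (fun n : ℕ => ((Good n k).card : ℝ) / B n k) atTop (𝓝 1) := by
  obtain ⟨R, hR, hdata⟩ := data k hk
  rw [← tendsto_add_atTop_iff_nat 7]
  have hlow : Tendsto (fun j : ℕ => 1 / (4 * √(2 * (1 / ((j : ℝ) + 1))) + 64 * (1 / ((j : ℝ) + 1))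
      + R j)) atTop (𝓝 (1 / (4 * √(2 * 0) + 64 * 0 + 1))) := by
    have t0 := tendsto_one_div_add_atTop_nhds_zero_nat (𝕜 := ℝ)
    refine tendsto_const_nhds.div ?_ (by simp)
    refine ((Tendsto.const_mul 4 ?_).add (t0.const_mul 64)).add hR
    exact (t0.const_mul 2).sqrt
  have h1 : (1 : ℝ) / (4 * √(2 * 0) + 64 * 0 + 1) = 1 := by simp
  rw [h1] at hlow
  refine tendsto_of_tendsto_of_tendsto_of_le_of_le hlow tendsto_const_nhds ?_ ?_
  · intro j
    obtain ⟨d1, d2, d3, d4⟩ := hdata j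
    have := ratio_lower (j + 7) k (by omega) (by
      have : j + 7 - 4 = j + 3 := by omega
      rw [this]; exact d1)
    have e2 : j + 7 - 2 = j + 5 := by omega
    have e3 : j + 7 - 3 = j + 4 := by omega
    have e4 : j + 7 - 4 = j + 3 := by omega
    rw [e2, e3, e4, d4] at this
    refine le_trans ?_ this
    have hj : (0 : ℝ) ≤ j := Nat.cast_nonneg j
    have hC : (0 : ℝ) < ((j + 5).choose k : ℝ) := by
      have : 0 < (j + 5).choose k := Nat.choose_pos (by rcases hk with rfl | rfl <;> omega)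
      exact_mod_cast this
    have hC3 : (0 : ℝ) ≤ ((j + 4).choose k : ℝ) := Nat.cast_nonneg _
    have hn1 : ((j + 7 : ℕ) : ℝ) = (j : ℝ) + 7 := by push_cast; ring
    have hRj : 0 ≤ R j := by rw [← d4]; positivity
    rw [hn1]
    have hm : (j : ℝ) + 7 - 1 = j + 6 := by ring
    rw [hm]
    have htau : (0 : ℝ) < ((j : ℝ) + 7) * (j + 6) := by positivity
    have b1 : 4 * √((j + 5).choose k : ℝ) / (((j : ℝ) + 7) * (j + 6)) ≤
        4 * √(2 * (1 / ((j : ℝ) + 1))) := by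
      rw [mul_div_assoc]
      apply mul_le_mul_of_nonneg_left _ (by norm_num)
      have : √((j + 5).choose k : ℝ) / (((j : ℝ) + 7) * (j + 6)) =
          √(((j + 5).choose k : ℝ) / (((j : ℝ) + 7) * (j + 6)) ^ 2) := by
        rw [Real.sqrt_div hC.le, Real.sqrt_sq htau.le]
      rw [this]
      apply Real.sqrt_le_sqrt
      rw [div_le_iff₀ (by positivity)]
      refine d2.trans ?_
      rw [mul_one_div, div_mul_eq_mul_div, le_div_iff₀ (by positivity)]
      have : (j : ℝ) + 1 ≤ j + 6 := by linarith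
      have h7 : (j : ℝ) + 7 ≤ 2 * (j + 6) := by linarith
      have e : 2 * (((j : ℝ) + 7) * (j + 6)) ^ 2 = ((j : ℝ) + 7) ^ 2 * ((j + 6) * (2 * (j + 6))) := by
        ring
      rw [e]
      calc ((j : ℝ) + 7) ^ 3 * (j + 1) = ((j : ℝ) + 7) ^ 2 * ((j + 1) * (j + 7)) := by ring
        _ ≤ ((j : ℝ) + 7) ^ 2 * ((j + 6) * (2 * (j + 6))) := by gcongr
    have b2 : 16 * ((j : ℝ) + 7) * ((j + 5).choose k : ℝ) /
        (((j : ℝ) + 7) * (j + 6) * (((j + 4).choose k : ℝ) + 1)) ≤ 64 * (1 / ((j : ℝ) + 1)) := by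
      rw [mul_one_div, div_le_div_iff₀ (by positivity) (by positivity)]
      calc 16 * ((j : ℝ) + 7) * ((j + 5).choose k : ℝ) * (j + 1)
          ≤ 16 * ((j : ℝ) + 7) * (4 * (((j + 4).choose k : ℝ) + 1)) * (j + 6) := by
            gcongr
            linarith
        _ = 64 * (((j : ℝ) + 7) * (j + 6) * (((j + 4).choose k : ℝ) + 1)) := by ring
    apply one_div_le_one_div_of_le
    · have h9 : 0 < 16 * ((j : ℝ) + 7) * ((j + 5).choose k : ℝ) /
        (((j : ℝ) + 7) * (j + 6) * (((j + 4).choose k : ℝ) + 1)) := by positivity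
      have h10 : 0 ≤ 4 * √((j + 5).choose k : ℝ) / (((j : ℝ) + 7) * (j + 6)) := by positivity
      linarith
    · linarith
  · intro j
    have hB : 0 < B (j + 7) k := by unfold B; positivity
    rw [div_le_one hB]
    unfold Good B
    have : (((EE (j + 7) (k + 1)).powerset).filter
        (fun H => ∃ v w : Fin (j + 7), v ≠ w ∧ dg H v = dg H w)).card ≤
        2 ^ (EE (j + 7) (k + 1)).card := by
      rw [← card_powerset]
      exact card_filter_le _ _
    exact_mod_cast this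

end Pool.Agent.HypDeg
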