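import Pool.Agent.HypDeg.Second

set_option autoImplicit false

namespace Pool.Agent.HypDeg

open Finset

noncomputable def p (M : ℕ) : ℝ := (Nat.centralBinom M : ℝ) / 4 ^ M

lemma p_pos (M : ℕ) : 0 < p M := by
  unfold p
  have := Nat.centralBinom_pos M
  positivity

lemma p_succ (M : ℕ) : p (M + 1) * (2 * M + 2) = p M * (2 * M + 1) := by
  unfold p
  have h : ((M : ℝ) + 1) * (Nat.centralBinom (M + 1) : ℝ) =
      2 * (2 * M + 1) * (Nat.centralBinom M : ℝ) := by
    exact_mod_cast Nat.succ_mul_centralBinom_succ M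
  rw [pow_succ]
  field_simp
  linear_combination 2 * h

lemma g_step (M : ℕ) : (M : ℝ) * p M ^ 2 ≤ ((M + 1 : ℕ) : ℝ) * p (M + 1) ^ 2 := by
  have h := p_succ M
  have h1 : p (M + 1) = p M * (2 * M + 1) / (2 * M + 2) := by
    rw [eq_div_iff (by positivity), h]
  rw [h1]
  have hM : (0 : ℝ) ≤ M := Nat.cast_nonneg M
  have hp := p_pos M
  have : ((M + 1 : ℕ) : ℝ) * (p M * (2 * M + 1) / (2 * M + 2)) ^ 2 =
      p M ^ 2 * ((2 * M + 1) ^ 2 / (4 * (M + 1))) := by
    push_cast
    field_simp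
    ring
  rw [this]
  have h2 : (M : ℝ) ≤ (2 * M + 1) ^ 2 / (4 * (M + 1)) := by
    rw [le_div_iff₀ (by positivity)]
    nlinarith
  nlinarith [mul_le_mul_of_nonneg_left h2 (sq_nonneg (p M))]

lemma g_mono {M M' : ℕ} (h : M ≤ M') : (M : ℝ) * p M ^ 2 ≤ (M' : ℝ) * p M' ^ 2 := by
  induction h with
  | refl => exact le_rfl
  | step _ ih => exact ih.trans (g_step _)

lemma p_lower {M : ℕ} (hM : 1 ≤ M) : 1 / 4 ≤ (M : ℝ) * p M ^ 2 := by
  have := g_mono hM
  have h1 : p 1 = 1 / 2 := by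
    unfold p
    have : Nat.centralBinom 1 = 2 := by decide
    rw [this]; norm_num
  rw [h1] at this
  norm_num at this ⊢
  exact this

lemma p_upper (M : ℕ) : (2 * (M : ℝ) + 1) * p M ^ 2 ≤ 1 := by
  induction M with
  | zero => simp [p]
  | succ M ih =>
    have h := p_succ M
    have h1 : p (M + 1) = p M * (2 * M + 1) / (2 * M + 2) := by
      rw [eq_div_iff (by positivity), h]
    rw [h1]
    have hM : (0 : ℝ) ≤ M := Nat.cast_nonneg M
    refine le_trans ?_ ih
    have : (2 * ((M + 1 : ℕ) : ℝ) + 1) * (p M * (2 * M + 1) / (2 * M + 2)) ^ 2 =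
        ((2 * M + 1) * p M ^ 2) * ((2 * M + 3) * (2 * M + 1) / (2 * M + 2) ^ 2) := by
      push_cast
      field_simp
      ring
    rw [this]
    apply mul_le_of_le_one_right (by positivity)
    rw [div_le_one (by positivity)]
    nlinarith

noncomputable def Q (m : ℕ) : ℝ := (m.choose (m / 2) : ℝ) / 2 ^ m

lemma Q_upper (m : ℕ) : ((m : ℝ) + 1) * Q m ^ 2 ≤ 1 := by
  rcases Nat.even_or_odd' m with ⟨j, rfl | rfl⟩
  · have : Q (2 * j) = p j := by
      unfold Q p
      rw [Nat.mul_div_cancel_left _ (by norm_num : 0 < 2), pow_mul]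
      norm_num
      rfl
    rw [this]
    have := p_upper j
    push_cast
    exact this
  · have : Q (2 * j + 1) = p (j + 1) := by
      unfold Q p
      have h1 : (2 * j + 1) / 2 = j := by omega
      have h2 : Nat.centralBinom (j + 1) = 2 * (2 * j + 1).choose j := by
        rw [Nat.centralBinom_eq_two_mul_choose]
        have : 2 * (j + 1) = (2 * j + 1) + 1 := by ring
        rw [this, Nat.choose_succ_succ, Nat.choose_symm_half]
        ring
      rw [h1, h2]
      push_cast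
      have : (4 : ℝ) ^ (j + 1) = 2 * 2 ^ (2 * j + 1) := by
        rw [show (4 : ℝ) = 2 ^ 2 by norm_num, ← pow_mul]
        ring
      rw [this]
      field_simp
    rw [this]
    have := p_upper (j + 1)
    push_cast at this ⊢
    nlinarith [sq_nonneg (p (j + 1))]

variable (n k : ℕ)

noncomputable def B : ℝ := 2 ^ (EE n (k + 1)).card

lemma card_EE : (EE n (k + 1)).card = n.choose (k + 1) := by
  rw [card_powersetCard, card_univ, Fintype.card_fin]

lemma sz1 (hn : 4 ≤ n) : 2 * (n - 2).choose k ≤ (EE n (k + 1)).card := by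
  rw [card_EE]
  obtain ⟨m, rfl⟩ : ∃ m, n = m + 2 := ⟨n - 2, by omega⟩
  have h1 : (m + 2).choose (k + 1) = (m + 1).choose k + (m + 1).choose (k + 1) :=
    Nat.choose_succ_succ _ _
  have h2 : (m + 1).choose (k + 1) = m.choose k + m.choose (k + 1) := Nat.choose_succ_succ _ _
  have h3 : m.choose k ≤ (m + 1).choose k := Nat.choose_le_choose _ (by omega)
  have h4 : m + 2 - 2 = m := by omega
  rw [h4]
  omega

lemma sz2 (hn : 4 ≤ n) : 2 * (n - 4).choose k + 2 * (n - 4).choose k ≤ (EE n (k + 1)).card := by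
  rw [card_EE]
  obtain ⟨m, rfl⟩ : ∃ m, n = m + 4 := ⟨n - 4, by omega⟩
  have h1 : (m + 4).choose (k + 1) = (m + 3).choose k + (m + 3).choose (k + 1) :=
    Nat.choose_succ_succ _ _
  have h2 : (m + 3).choose (k + 1) = (m + 2).choose k + (m + 2).choose (k + 1) :=
    Nat.choose_succ_succ _ _
  have h3 : (m + 2).choose (k + 1) = (m + 1).choose k + (m + 1).choose (k + 1) :=
    Nat.choose_succ_succ _ _
  have h4 : (m + 1).choose (k + 1) = m.choose k + m.choose (k + 1) := Nat.choose_succ_succ _ _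
  have a1 : m.choose k ≤ (m + 1).choose k := Nat.choose_le_choose _ (by omega)
  have a2 : m.choose k ≤ (m + 2).choose k := Nat.choose_le_choose _ (by omega)
  have a3 : m.choose k ≤ (m + 3).choose k := Nat.choose_le_choose _ (by omega)
  have h5 : m + 4 - 4 = m := by omega
  rw [h5]
  omega

lemma lowR (hn : 4 ≤ n) (t : Fin n × Fin n) (ht : t.1 ≠ t.2) :
    B n k * p ((n - 2).choose k) ≤ ((Ev n (k + 1) t).card : ℝ) := by
  have h := Ev_lower n k t.1 t.2 ht
  have h' : ((Nat.centralBinom ((n - 2).choose k) : ℝ) *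
      2 ^ ((EE n (k + 1)).card - 2 * (n - 2).choose k)) ≤ ((Ev n (k + 1) t).card : ℝ) := by
    exact_mod_cast h
  refine le_trans (le_of_eq ?_) h'
  unfold B p
  rw [pow_sub₀ _ (by norm_num) (sz1 n k hn), pow_mul]
  norm_num
  ring

lemma tripR (hn : 4 ≤ n) (v w x : Fin n) (hvw : v ≠ w) (hvx : v ≠ x) (hwx : w ≠ x)
    (A : Finset (Finset (Finset (Fin n)))) (hA : ∀ H ∈ A, H ⊆ EE n (k + 1) ∧ dg H w = dg H v ∧
      dg H x = dg H v) : (A.card : ℝ) ≤ B n k * Q ((n - 3).choose k) ^ 2 := by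
  have h := Ev_triple n k v w x hvw hvx hwx A hA
  have h' : (A.card : ℝ) ≤ (((n - 3).choose k).choose (((n - 3).choose k) / 2) : ℝ) *
      (((n - 3).choose k).choose (((n - 3).choose k) / 2) : ℝ) *
      2 ^ ((EE n (k + 1)).card - ((n - 3).choose k + (n - 3).choose k)) := by exact_mod_cast h
  refine h'.trans (le_of_eq ?_)
  have hs : (n - 3).choose k + (n - 3).choose k ≤ (EE n (k + 1)).card := by
    have h1 := sz1 n k hn
    have h2 : (n - 3).choose k ≤ (n - 2).choose k := Nat.choose_le_choose _ (by omega)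
    omega
  unfold B Q
  rw [pow_sub₀ _ (by norm_num) hs, pow_add]
  field_simp

lemma disjR (hn : 4 ≤ n) (v w x y : Fin n) (hvw : v ≠ w) (hvx : v ≠ x) (hvy : v ≠ y)
    (hwx : w ≠ x) (hwy : w ≠ y) (hxy : x ≠ y)
    (A : Finset (Finset (Finset (Fin n)))) (hA : ∀ H ∈ A, H ⊆ EE n (k + 1) ∧ dg H v = dg H w ∧
      dg H x = dg H y) : (A.card : ℝ) ≤ B n k * p ((n - 4).choose k) ^ 2 := by
  have h := Ev_disjoint n k v w x y hvw hvx hvy hwx hwy hxy A hA
  have h' : (A.card : ℝ) ≤ (Nat.centralBinom ((n - 4).choose k) : ℝ) *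
      (Nat.centralBinom ((n - 4).choose k) : ℝ) *
      2 ^ ((EE n (k + 1)).card - (2 * (n - 4).choose k + 2 * (n - 4).choose k)) := by
    exact_mod_cast h
  refine h'.trans (le_of_eq ?_)
  unfold B p
  rw [pow_sub₀ _ (by norm_num) (sz2 n k hn), pow_add, pow_mul]
  norm_num
  field_simp

/-- the set of hypergraphs with two vertices of equal degree -/
def Good : Finset (Finset (Finset (Fin n))) :=
  ((EE n (k + 1)).powerset).filter (fun H => ∃ v w : Fin n, v ≠ w ∧ dg H v = dg H w)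

lemma pairR (hn : 4 ≤ n) (t t' : Fin n × Fin n) (ht : t.1 ≠ t.2) (ht' : t'.1 ≠ t'.2) :
    ((Ev n (k + 1) t ∩ Ev n (k + 1) t').card : ℝ) ≤
      (if t' = t ∨ t' = t.swap then ((Ev n (k + 1) t).card : ℝ) else 0) +
      (if t'.1 = t.1 ∨ t'.1 = t.2 ∨ t'.2 = t.1 ∨ t'.2 = t.2 then
        B n k * Q ((n - 3).choose k) ^ 2 else 0) + B n k * p ((n - 4).choose k) ^ 2 := by
  obtain ⟨v, w⟩ := t
  obtain ⟨x, y⟩ := t'
  simp only at ht ht'
  have hB : 0 < B n k := by unfold B; positivity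
  have n1 : 0 ≤ B n k * Q ((n - 3).choose k) ^ 2 := by positivity
  have n2 : 0 ≤ B n k * p ((n - 4).choose k) ^ 2 := by positivity
  have n3 : (0 : ℝ) ≤ ((Ev n (k + 1) (v, w)).card : ℝ) := Nat.cast_nonneg _
  have hmem : ∀ H ∈ Ev n (k + 1) (v, w) ∩ Ev n (k + 1) (x, y),
      H ⊆ EE n (k + 1) ∧ dg H v = dg H w ∧ dg H x = dg H y := by
    intro H hH
    rw [mem_inter] at hH
    unfold Ev at hH
    rw [mem_filter, mem_filter] at hH
    exact ⟨mem_powerset.mp hH.1.1, hH.1.2, hH.2.2⟩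
  by_cases hsame : (x, y) = (v, w) ∨ (x, y) = (v, w).swap
  · rw [if_pos hsame]
    have : ((Ev n (k + 1) (v, w) ∩ Ev n (k + 1) (x, y)).card : ℝ) ≤
        ((Ev n (k + 1) (v, w)).card : ℝ) := by
      exact_mod_cast card_le_card inter_subset_left
    split_ifs <;> linarith
  · rw [if_neg hsame]
    rw [not_or] at hsame
    simp only [Prod.swap_prod_mk, Prod.mk.injEq, not_and] at hsame
    by_cases hsh : x = v ∨ x = w ∨ y = v ∨ y = w
    · rw [if_pos hsh]
      have : ((Ev n (k + 1) (v, w) ∩ Ev n (k + 1) (x, y)).card : ℝ) ≤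
          B n k * Q ((n - 3).choose k) ^ 2 := by
        rcases hsh with rfl | rfl | rfl | rfl
        · refine tripR n k hn x w y ht ht' (fun h => hsame.1 rfl h.symm) _ ?_
          intro H hH
          obtain ⟨h1, h2, h3⟩ := hmem H hH
          exact ⟨h1, h2.symm, h3.symm⟩
        · refine tripR n k hn x v y ht.symm ht' (fun h => hsame.2 rfl h.symm) _ ?_
          intro H hH
          obtain ⟨h1, h2, h3⟩ := hmem H hH
          exact ⟨h1, h2, h3.symm⟩
        · refine tripR n k hn y w x ht ht'.symm (fun h => hsame.2 h.symm rfl) _ ?_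
          intro H hH
          obtain ⟨h1, h2, h3⟩ := hmem H hH
          exact ⟨h1, h2.symm, h3⟩
        · refine tripR n k hn y v x ht.symm ht'.symm (fun h => hsame.1 h.symm rfl) _ ?_
          intro H hH
          obtain ⟨h1, h2, h3⟩ := hmem H hH
          exact ⟨h1, h2, h3⟩
      linarith
    · rw [if_neg hsh]
      rw [not_or, not_or, not_or] at hsh
      obtain ⟨a1, a2, a3, a4⟩ := hsh
      have := disjR n k hn v w x y ht (Ne.symm a1) (Ne.symm a3) (Ne.symm a2) (Ne.symm a4) ht' _ hmem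
      linarith

lemma sum_bound (hn : 4 ≤ n) (t : Fin n × Fin n) (ht : t.1 ≠ t.2) :
    ∑ t' ∈ (univ : Finset (Fin n)).offDiag, ((Ev n (k + 1) t ∩ Ev n (k + 1) t').card : ℝ) ≤
      2 * ((Ev n (k + 1) t).card : ℝ) + 4 * n * (B n k * Q ((n - 3).choose k) ^ 2) +
      ((univ : Finset (Fin n)).offDiag.card : ℝ) * (B n k * p ((n - 4).choose k) ^ 2) := by
  have hB : 0 < B n k := by unfold B; positivity
  have n1 : 0 ≤ B n k * Q ((n - 3).choose k) ^ 2 := by positivity
  have n3 : (0 : ℝ) ≤ ((Ev n (k + 1) t).card : ℝ) := Nat.cast_nonneg _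
  refine (sum_le_sum (fun t' ht' => pairR n k hn t t' ht (mem_offDiag.mp ht').2.2)).trans ?_
  rw [sum_add_distrib, sum_add_distrib, ← sum_filter, ← sum_filter, sum_const, sum_const,
    sum_const, nsmul_eq_mul, nsmul_eq_mul, nsmul_eq_mul]
  have c1 : (((univ : Finset (Fin n)).offDiag.filter (fun t' => t' = t ∨ t' = t.swap)).card : ℝ)
      ≤ 2 := by
    have : ((univ : Finset (Fin n)).offDiag.filter (fun t' => t' = t ∨ t' = t.swap)) ⊆
        {t, t.swap} := by
      intro t' h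
      rw [mem_filter] at h
      simpa using h.2
    exact_mod_cast (card_le_card this).trans (card_le_two)
  have c2 : (((univ : Finset (Fin n)).offDiag.filter (fun t' => t'.1 = t.1 ∨ t'.1 = t.2 ∨
      t'.2 = t.1 ∨ t'.2 = t.2)).card : ℝ) ≤ 4 * n := by
    have h1 : ((univ : Finset (Fin n)).offDiag.filter (fun t' => t'.1 = t.1 ∨ t'.1 = t.2 ∨
      t'.2 = t.1 ∨ t'.2 = t.2)) ⊆ (({t.1} ×ˢ univ) ∪ ({t.2} ×ˢ univ)) ∪
        ((univ ×ˢ {t.1}) ∪ (univ ×ˢ {t.2})) := by
      intro t' h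
      rw [mem_filter] at h
      simp only [mem_union, mem_product, mem_singleton, mem_univ, and_true, true_and]
      tauto
    have h2 := card_le_card h1
    have h3 := card_union_le (({t.1} ×ˢ univ) ∪ ({t.2} ×ˢ univ) : Finset (Fin n × Fin n))
        ((univ ×ˢ {t.1}) ∪ (univ ×ˢ {t.2}))
    have h4 := card_union_le ({t.1} ×ˢ univ : Finset (Fin n × Fin n)) ({t.2} ×ˢ univ)
    have h5 := card_union_le (univ ×ˢ {t.1} : Finset (Fin n × Fin n)) (univ ×ˢ {t.2})
    simp only [card_product, card_singleton, card_univ, Fintype.card_fin, one_mul, mul_one] at h4 h5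
    have : ((univ : Finset (Fin n)).offDiag.filter (fun t' => t'.1 = t.1 ∨ t'.1 = t.2 ∨
      t'.2 = t.1 ∨ t'.2 = t.2)).card ≤ 4 * n := by omega
    exact_mod_cast this
  have d1 := mul_le_mul_of_nonneg_right c1 n3
  have d2 := mul_le_mul_of_nonneg_right c2 n1
  linarith

/-- second moment inequality -/
lemma second_moment (hn : 4 ≤ n) :
    (∑ t ∈ (univ : Finset (Fin n)).offDiag, ((Ev n (k + 1) t).card : ℝ)) ^ 2 ≤
      ((Good n k).card : ℝ) *
      (2 * (∑ t ∈ (univ : Finset (Fin n)).offDiag, ((Ev n (k + 1) t).card : ℝ)) +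
        (((univ : Finset (Fin n)).offDiag.card : ℝ) *
          (4 * n * (B n k * Q ((n - 3).choose k) ^ 2)) +
        ((univ : Finset (Fin n)).offDiag.card : ℝ) ^ 2 * (B n k * p ((n - 4).choose k) ^ 2))) := by
  set T := (univ : Finset (Fin n)).offDiag with hT
  have hsub : ∀ t ∈ T, Ev n (k + 1) t ⊆ Good n k := by
    intro t ht H hH
    unfold Ev at hH
    unfold Good
    rw [mem_filter] at hH ⊢
    exact ⟨hH.1, t.1, t.2, (mem_offDiag.mp ht).2.2, hH.2⟩
  have hS : ∑ H ∈ Good n k, ∑ t ∈ T, (if H ∈ Ev n (k + 1) t then (1 : ℝ) else 0) =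
      ∑ t ∈ T, ((Ev n (k + 1) t).card : ℝ) := by
    rw [sum_comm]
    apply sum_congr rfl
    intro t ht
    rw [← sum_filter, sum_const, nsmul_eq_mul, mul_one]
    congr 2
    ext H
    rw [mem_filter]
    exact ⟨fun h => h.2, fun h => ⟨hsub t ht h, h⟩⟩
  have hSS : ∑ H ∈ Good n k, (∑ t ∈ T, (if H ∈ Ev n (k + 1) t then (1 : ℝ) else 0)) ^ 2 =
      ∑ t ∈ T, ∑ t' ∈ T, ((Ev n (k + 1) t ∩ Ev n (k + 1) t').card : ℝ) := by
    simp_rw [sq, sum_mul_sum]
    rw [sum_comm]
    apply sum_congr rfl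
    intro t ht
    rw [sum_comm]
    apply sum_congr rfl
    intro t' _
    have : ∀ H, (if H ∈ Ev n (k + 1) t then (1 : ℝ) else 0) *
        (if H ∈ Ev n (k + 1) t' then (1 : ℝ) else 0) =
        if H ∈ Ev n (k + 1) t ∩ Ev n (k + 1) t' then (1 : ℝ) else 0 := by
      intro H
      by_cases h1 : H ∈ Ev n (k + 1) t <;> by_cases h2 : H ∈ Ev n (k + 1) t' <;>
        simp [h1, h2, mem_inter]
    simp_rw [this]
    rw [← sum_filter, sum_const, nsmul_eq_mul, mul_one]
    congr 2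
    ext H
    rw [mem_filter]
    exact ⟨fun h => h.2, fun h => ⟨hsub t ht (mem_inter.mp h).1, h⟩⟩
  rw [← hS]
  refine (sq_sum_le_card_mul_sum_sq).trans ?_
  apply mul_le_mul_of_nonneg_left _ (Nat.cast_nonneg _)
  rw [hSS, hS]
  refine (sum_le_sum (fun t ht => sum_bound n k hn t (mem_offDiag.mp ht).2.2)).trans ?_
  rw [sum_add_distrib, sum_add_distrib, ← mul_sum, sum_const, sum_const, nsmul_eq_mul,
    nsmul_eq_mul]
  apply le_of_eq
  ring

end Pool.Agent.HypDeg
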