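import Pool.Agent.HypDeg.Count

set_option autoImplicit false

namespace Pool.Agent.HypDeg

open Finset

/-- all possible edges -/
abbrev EE (n k : ℕ) : Finset (Finset (Fin n)) := (univ : Finset (Fin n)).powersetCard k

/-- degree -/
abbrev dg {n : ℕ} (H : Finset (Finset (Fin n))) (v : Fin n) : ℕ := (H.filter (fun e => v ∈ e)).card

/-- the edges containing `v` and avoiding `X` -/
def star (n k : ℕ) (v : Fin n) (X : Finset (Fin n)) : Finset (Finset (Fin n)) :=
  (EE n k).filter (fun e => v ∈ e ∧ Disjoint e X)

lemma mem_star {n k : ℕ} {v : Fin n} {X : Finset (Fin n)} {e : Finset (Fin n)} :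
    e ∈ star n k v X ↔ e ∈ EE n k ∧ v ∈ e ∧ Disjoint e X := by
  unfold star; rw [mem_filter]

lemma star_card (n k : ℕ) (v : Fin n) (X : Finset (Fin n)) (hv : v ∉ X) :
    (star n (k + 1) v X).card = (n - 1 - X.card).choose k := by
  have h : star n (k + 1) v X = (powersetCard k (univ \ insert v X)).image (insert v) := by
    ext e
    rw [mem_star, mem_image, mem_powersetCard]
    constructor
    · rintro ⟨⟨_, hc⟩, hve, hd⟩
      refine ⟨e.erase v, ?_, insert_erase hve⟩
      rw [mem_powersetCard]
      refine ⟨?_, by rw [card_erase_of_mem hve, hc]; rfl⟩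
      intro x hx
      rw [mem_erase] at hx
      rw [mem_sdiff, mem_insert]
      refine ⟨mem_univ _, ?_⟩
      rintro (h | h)
      · exact hx.1 h
      · exact disjoint_left.mp hd hx.2 h
    · rintro ⟨f, hf, rfl⟩
      rw [mem_powersetCard] at hf
      have hvf : v ∉ f := by
        intro h
        have := hf.1 h
        rw [mem_sdiff, mem_insert] at this
        exact this.2 (Or.inl rfl)
      refine ⟨⟨subset_univ _, by rw [card_insert_of_notMem hvf, hf.2]⟩, mem_insert_self _ _, ?_⟩
      rw [disjoint_left]
      intro x hx hxX
      rw [mem_insert] at hx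
      rcases hx with rfl | hx
      · exact hv hxX
      · have := hf.1 hx
        rw [mem_sdiff, mem_insert] at this
        exact this.2 (Or.inr hxX)
  rw [h, card_image_of_injOn, card_powersetCard, card_sdiff_of_subset (subset_univ _), card_univ,
    Fintype.card_fin, card_insert_of_notMem hv]
  · congr 1; omega
  · intro f hf g hg hfg
    rw [mem_coe, mem_powersetCard] at hf hg
    have hvf : ∀ f : Finset (Fin n), f ⊆ univ \ insert v X → v ∉ f := by
      intro f hf h
      have := hf h
      rw [mem_sdiff, mem_insert] at this
      exact this.2 (Or.inl rfl)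
    have := congrArg (fun s => s.erase v) hfg
    simpa [erase_insert (hvf f hf.1), erase_insert (hvf g hg.1)] using this

lemma star_subset {n k : ℕ} (v : Fin n) (X : Finset (Fin n)) : star n k v X ⊆ EE n k :=
  filter_subset _ _

/-- splitting the degree -/
lemma dg_split {n : ℕ} (H S P : Finset (Finset (Fin n))) (v : Fin n) (hPS : P ⊆ S)
    (h : ∀ e ∈ S, v ∈ e ↔ e ∈ P) : dg H v = (H ∩ P).card + dg (H \ S) v := by
  unfold dg
  rw [← card_union_of_disjoint]
  · congr 1
    ext e
    simp only [mem_filter, mem_union, mem_inter, mem_sdiff]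
    constructor
    · rintro ⟨heH, hve⟩
      by_cases hS : e ∈ S
      · exact Or.inl ⟨heH, (h e hS).mp hve⟩
      · exact Or.inr ⟨⟨heH, hS⟩, hve⟩
    · rintro (⟨heH, heP⟩ | ⟨⟨heH, _⟩, hve⟩)
      · exact ⟨heH, (h e (hPS heP)).mpr heP⟩
      · exact ⟨heH, hve⟩
  · rw [disjoint_left]
    intro e he he'
    rw [mem_inter] at he
    rw [mem_filter, mem_sdiff] at he'
    exact he'.1.2 (hPS he.2)

/-- the event that `v` and `w` have the same degree -/
def Ev (n k : ℕ) (t : Fin n × Fin n) : Finset (Finset (Finset (Fin n))) :=
  ((EE n k).powerset).filter (fun H => dg H t.1 = dg H t.2)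

lemma Ev_lower (n k : ℕ) (v w : Fin n) (hvw : v ≠ w) :
    Nat.centralBinom ((n - 2).choose k) * 2 ^ ((EE n (k + 1)).card - 2 * (n - 2).choose k) ≤
      (Ev n (k + 1) (v, w)).card := by
  have hP : (star n (k + 1) v {w}).card = (n - 2).choose k := by
    rw [star_card n k v {w} (by simpa using hvw), card_singleton]; rfl
  have hN : (star n (k + 1) w {v}).card = (n - 2).choose k := by
    rw [star_card n k w {v} (by simpa using hvw.symm), card_singleton]; rfl
  have hd : Disjoint (star n (k + 1) v {w}) (star n (k + 1) w {v}) := by
    rw [disjoint_left]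
    intro e he he'
    rw [mem_star] at he he'
    exact disjoint_left.mp he.2.2 he'.2.1 (mem_singleton_self _)
  have h1 := lower_count (EE n (k + 1)) (star n (k + 1) v {w}) (star n (k + 1) w {v})
    (star_subset _ _) (star_subset _ _) hd (by rw [hP, hN])
  rw [hN] at h1
  refine h1.trans (card_le_card ?_)
  intro H hH
  rw [mem_filter] at hH
  unfold Ev
  rw [mem_filter]
  refine ⟨hH.1, ?_⟩
  have hS : H ⊆ EE n (k + 1) := mem_powerset.mp hH.1
  have e1 := dg_split H (star n (k + 1) v {w} ∪ star n (k + 1) w {v}) (star n (k + 1) v {w}) v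
    subset_union_left (by
      intro e he
      rw [mem_union] at he
      constructor
      · intro hv
        rcases he with he | he
        · exact he
        · exact absurd (mem_singleton_self v) (disjoint_left.mp (mem_star.mp he).2.2 hv)
      · intro h; exact (mem_star.mp h).2.1)
  have e2 := dg_split H (star n (k + 1) v {w} ∪ star n (k + 1) w {v}) (star n (k + 1) w {v}) w
    subset_union_right (by
      intro e he
      rw [mem_union] at he
      constructor
      · intro hv
        rcases he with he | he
        · exact absurd (mem_singleton_self w) (disjoint_left.mp (mem_star.mp he).2.2 hv)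
        · exact he
      · intro h; exact (mem_star.mp h).2.1)
  dsimp only
  rw [e1, e2, hH.2]
  congr 1
  unfold dg
  congr 1
  ext e
  simp only [mem_filter, mem_sdiff, mem_union, not_or]
  have hkey : e ∈ H → e ∉ star n (k + 1) v {w} → e ∉ star n (k + 1) w {v} →
      (v ∈ e ↔ w ∈ e) := by
    intro heH h1 h2
    constructor
    · intro hv
      by_contra hw
      exact h1 (mem_star.mpr ⟨hS heH, hv, by simpa using hw⟩)
    · intro hw
      by_contra hv
      exact h2 (mem_star.mpr ⟨hS heH, hw, by simpa using hv⟩)
  constructor
  · rintro ⟨⟨a, b, c⟩, d⟩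
    exact ⟨⟨a, b, c⟩, (hkey a b c).mp d⟩
  · rintro ⟨⟨a, b, c⟩, d⟩
    exact ⟨⟨a, b, c⟩, (hkey a b c).mpr d⟩

lemma Ev_triple (n k : ℕ) (v w x : Fin n) (hvw : v ≠ w) (hvx : v ≠ x) (hwx : w ≠ x)
    (A : Finset (Finset (Finset (Fin n)))) (hA : ∀ H ∈ A, H ⊆ EE n (k + 1) ∧ dg H w = dg H v ∧
      dg H x = dg H v) :
    A.card ≤ ((n - 3).choose k).choose (((n - 3).choose k) / 2) *
      ((n - 3).choose k).choose (((n - 3).choose k) / 2) *
      2 ^ ((EE n (k + 1)).card - ((n - 3).choose k + (n - 3).choose k)) := by
  have h1 : (star n (k + 1) w {v, x}).card = (n - 3).choose k := by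
    rw [star_card n k w {v, x} (by simp [hvw.symm, hwx]), card_pair hvx]; rfl
  have h2 : (star n (k + 1) x {v, w}).card = (n - 3).choose k := by
    rw [star_card n k x {v, w} (by simp [hvx.symm, hwx.symm]), card_pair hvw]; rfl
  have hd : Disjoint (star n (k + 1) w {v, x}) (star n (k + 1) x {v, w}) := by
    rw [disjoint_left]
    intro e he he'
    rw [mem_star] at he he'
    exact disjoint_left.mp he.2.2 he'.2.1 (by simp)
  have := main_count (EE n (k + 1)) (star n (k + 1) w {v, x}) (star n (k + 1) x {v, w}) ∅ ∅
    (star_subset _ _) (star_subset _ _) hd (empty_subset _) (empty_subset _)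
    (fun H => dg H w) (fun H => dg H v) (fun H => dg H x) (fun H => dg H v) A (by
      intro H hH
      obtain ⟨hS, e1, e2⟩ := hA H hH
      refine ⟨hS, ?_, ?_⟩
      · rw [sdiff_empty, inter_empty, card_empty, zero_add]
        have a1 := dg_split H (star n (k + 1) w {v, x} ∪ star n (k + 1) x {v, w})
          (star n (k + 1) w {v, x}) w subset_union_left (by
            intro e he
            rw [mem_union] at he
            constructor
            · intro hw
              rcases he with he | he
              · exact he
              · exact absurd (show w ∈ ({v, w} : Finset (Fin n)) by simp)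
                  (disjoint_left.mp (mem_star.mp he).2.2 hw)
            · intro h; exact (mem_star.mp h).2.1)
        have a2 := dg_split H (star n (k + 1) w {v, x} ∪ star n (k + 1) x {v, w})
          ∅ v (empty_subset _) (by
            intro e he
            rw [mem_union] at he
            constructor
            · intro hv
              rcases he with he | he
              · exact absurd (show v ∈ ({v, x} : Finset (Fin n)) by simp)
                  (disjoint_left.mp (mem_star.mp he).2.2 hv)
              · exact absurd (show v ∈ ({v, w} : Finset (Fin n)) by simp)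
                  (disjoint_left.mp (mem_star.mp he).2.2 hv)
            · intro h; simp at h)
        rw [inter_empty, card_empty, zero_add] at a2
        rw [← a1, ← a2, e1]
      · rw [sdiff_empty, inter_empty, card_empty, zero_add]
        have a1 := dg_split H (star n (k + 1) w {v, x} ∪ star n (k + 1) x {v, w})
          (star n (k + 1) x {v, w}) x subset_union_right (by
            intro e he
            rw [mem_union] at he
            constructor
            · intro hx
              rcases he with he | he
              · exact absurd (show x ∈ ({v, x} : Finset (Fin n)) by simp)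
                  (disjoint_left.mp (mem_star.mp he).2.2 hx)
              · exact he
            · intro h; exact (mem_star.mp h).2.1)
        have a2 := dg_split H (star n (k + 1) w {v, x} ∪ star n (k + 1) x {v, w})
          ∅ v (empty_subset _) (by
            intro e he
            rw [mem_union] at he
            constructor
            · intro hv
              rcases he with he | he
              · exact absurd (show v ∈ ({v, x} : Finset (Fin n)) by simp)
                  (disjoint_left.mp (mem_star.mp he).2.2 hv)
              · exact absurd (show v ∈ ({v, w} : Finset (Fin n)) by simp)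
                  (disjoint_left.mp (mem_star.mp he).2.2 hv)
            · intro h; simp at h)
        rw [inter_empty, card_empty, zero_add] at a2
        rw [← a1, ← a2, e2])
  rw [h1, h2] at this
  exact this

lemma Ev_disjoint (n k : ℕ) (v w x y : Fin n) (hvw : v ≠ w) (hvx : v ≠ x) (hvy : v ≠ y)
    (hwx : w ≠ x) (hwy : w ≠ y) (hxy : x ≠ y)
    (A : Finset (Finset (Finset (Fin n)))) (hA : ∀ H ∈ A, H ⊆ EE n (k + 1) ∧ dg H v = dg H w ∧
      dg H x = dg H y) :
    A.card ≤ Nat.centralBinom ((n - 4).choose k) * Nat.centralBinom ((n - 4).choose k) *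
      2 ^ ((EE n (k + 1)).card - (2 * (n - 4).choose k + 2 * (n - 4).choose k)) := by
  have c1 : (star n (k + 1) v {w, x, y}).card = (n - 4).choose k := by
    rw [star_card n k v {w, x, y} (by simp [hvw, hvx, hvy]),
      card_eq_three.mpr ⟨w, x, y, hwx, hwy, hxy, rfl⟩]; rfl
  have c2 : (star n (k + 1) w {v, x, y}).card = (n - 4).choose k := by
    rw [star_card n k w {v, x, y} (by simp [hvw.symm, hwx, hwy]),
      card_eq_three.mpr ⟨v, x, y, hvx, hvy, hxy, rfl⟩]; rfl
  have c3 : (star n (k + 1) x {v, w, y}).card = (n - 4).choose k := by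
    rw [star_card n k x {v, w, y} (by simp [hvx.symm, hwx.symm, hxy]),
      card_eq_three.mpr ⟨v, w, y, hvw, hvy, hwy, rfl⟩]; rfl
  have c4 : (star n (k + 1) y {v, w, x}).card = (n - 4).choose k := by
    rw [star_card n k y {v, w, x} (by simp [hvy.symm, hwy.symm, hxy.symm]),
      card_eq_three.mpr ⟨v, w, x, hvw, hvx, hwx, rfl⟩]; rfl
  obtain ⟨Pv, hPv⟩ : ∃ P, P = star n (k + 1) v {w, x, y} := ⟨_, rfl⟩
  obtain ⟨Pw, hPw⟩ : ∃ P, P = star n (k + 1) w {v, x, y} := ⟨_, rfl⟩
  obtain ⟨Px, hPx⟩ : ∃ P, P = star n (k + 1) x {v, w, y} := ⟨_, rfl⟩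
  obtain ⟨Py, hPy⟩ : ∃ P, P = star n (k + 1) y {v, w, x} := ⟨_, rfl⟩
  have mv : ∀ e ∈ Pv, v ∈ e ∧ w ∉ e ∧ x ∉ e ∧ y ∉ e := by
    intro e he
    rw [hPv, mem_star] at he
    have := he.2.2
    simp only [disjoint_insert_right, disjoint_singleton_right] at this
    exact ⟨he.2.1, this⟩
  have mw : ∀ e ∈ Pw, w ∈ e ∧ v ∉ e ∧ x ∉ e ∧ y ∉ e := by
    intro e he
    rw [hPw, mem_star] at he
    have := he.2.2
    simp only [disjoint_insert_right, disjoint_singleton_right] at this
    exact ⟨he.2.1, this⟩
  have mx : ∀ e ∈ Px, x ∈ e ∧ v ∉ e ∧ w ∉ e ∧ y ∉ e := by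
    intro e he
    rw [hPx, mem_star] at he
    have := he.2.2
    simp only [disjoint_insert_right, disjoint_singleton_right] at this
    exact ⟨he.2.1, this⟩
  have my : ∀ e ∈ Py, y ∈ e ∧ v ∉ e ∧ w ∉ e ∧ x ∉ e := by
    intro e he
    rw [hPy, mem_star] at he
    have := he.2.2
    simp only [disjoint_insert_right, disjoint_singleton_right] at this
    exact ⟨he.2.1, this⟩
  rw [← hPv] at c1
  rw [← hPw] at c2
  rw [← hPx] at c3
  rw [← hPy] at c4
  have dvw : Disjoint Pv Pw := disjoint_left.mpr (fun e h h' => (mv e h).2.1 (mw e h').1)
  have dxy : Disjoint Px Py := disjoint_left.mpr (fun e h h' => (mx e h).2.2.2 (my e h').1)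
  have hd : Disjoint (Pv ∪ Pw) (Px ∪ Py) := by
    rw [disjoint_left]
    intro e he he'
    rw [mem_union] at he he'
    rcases he with h | h <;> rcases he' with h' | h'
    · exact (mv e h).2.2.1 (mx e h').1
    · exact (mv e h).2.2.2 (my e h').1
    · exact (mw e h).2.2.1 (mx e h').1
    · exact (mw e h).2.2.2 (my e h').1
  have s1 : (Pv ∪ Pw).card = 2 * (n - 4).choose k := by
    rw [card_union_of_disjoint dvw, c1, c2]; ring
  have s2 : (Px ∪ Py).card = 2 * (n - 4).choose k := by
    rw [card_union_of_disjoint dxy, c3, c4]; ring
  have u1 : (Pv ∪ Pw) \ Pw = Pv := by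
    rw [union_sdiff_right]; exact sdiff_eq_self_of_disjoint dvw
  have u2 : (Px ∪ Py) \ Py = Px := by
    rw [union_sdiff_right]; exact sdiff_eq_self_of_disjoint dxy
  have sub : ∀ z X, star n (k + 1) z X ⊆ EE n (k + 1) := fun z X => star_subset z X
  have := main_count (EE n (k + 1)) (Pv ∪ Pw) (Px ∪ Py) Pw Py
    (union_subset (hPv ▸ sub _ _) (hPw ▸ sub _ _)) (union_subset (hPx ▸ sub _ _) (hPy ▸ sub _ _))
    hd subset_union_right subset_union_right
    (fun H => dg H v) (fun H => dg H w) (fun H => dg H x) (fun H => dg H y) A (by
      intro H hH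
      obtain ⟨hS, e1, e2⟩ := hA H hH
      have av := dg_split H ((Pv ∪ Pw) ∪ (Px ∪ Py)) Pv v
        (subset_union_left.trans subset_union_left) (by
          intro e he
          simp only [mem_union] at he
          constructor
          · intro hv
            rcases he with (h | h) | (h | h)
            · exact h
            · exact absurd hv (mw e h).2.1
            · exact absurd hv (mx e h).2.1
            · exact absurd hv (my e h).2.1
          · intro h; exact (mv e h).1)
      have aw := dg_split H ((Pv ∪ Pw) ∪ (Px ∪ Py)) Pw w
        (subset_union_right.trans subset_union_left) (by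
          intro e he
          simp only [mem_union] at he
          constructor
          · intro hv
            rcases he with (h | h) | (h | h)
            · exact absurd hv (mv e h).2.1
            · exact h
            · exact absurd hv (mx e h).2.2.1
            · exact absurd hv (my e h).2.2.1
          · intro h; exact (mw e h).1)
      have ax := dg_split H ((Pv ∪ Pw) ∪ (Px ∪ Py)) Px x
        (subset_union_left.trans subset_union_right) (by
          intro e he
          simp only [mem_union] at he
          constructor
          · intro hv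
            rcases he with (h | h) | (h | h)
            · exact absurd hv (mv e h).2.2.1
            · exact absurd hv (mw e h).2.2.1
            · exact h
            · exact absurd hv (my e h).2.2.2
          · intro h; exact (mx e h).1)
      have ay := dg_split H ((Pv ∪ Pw) ∪ (Px ∪ Py)) Py y
        (subset_union_right.trans subset_union_right) (by
          intro e he
          simp only [mem_union] at he
          constructor
          · intro hv
            rcases he with (h | h) | (h | h)
            · exact absurd hv (mv e h).2.2.2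
            · exact absurd hv (mw e h).2.2.2
            · exact absurd hv (mx e h).2.2.2
            · exact h
          · intro h; exact (my e h).1)
      refine ⟨hS, ?_, ?_⟩
      · rw [u1, ← av, ← aw, e1]
      · rw [u2, ← ax, ← ay, e2])
  rw [s1, s2, Nat.mul_div_cancel_left _ (by norm_num : 0 < 2)] at this
  exact this

end Pool.Agent.HypDeg
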